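import Pool.Agent.helper63.EF.TA
import Pool.Agent.helper15.EF.CO

/-! # Project EF, module T2: all points have order 420 -/

namespace Pool.Agent.helper88.EF

open Finset Pool.Agent.helper76.LP

lemma T2_mem (D p : ℕ) [NeZero D] (hpD : p ∣ D) (u : (ZMod D)ˣ) :
    u ∈ Gam D p ↔ (u : ZMod D).val ≡ 1 [MOD D / p] := by
  have : ∀ n : ℕ, (h : n ∣ D) → (ZMod.unitsMap h u = 1 ↔ (u : ZMod D).val ≡ 1 [MOD n]) := by
    intro n h
    rw [Units.ext_iff, ZMod.unitsMap_def, Units.coe_map, Units.val_one,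
      ← ZMod.natCast_eq_natCast_iff, Nat.cast_one, ZMod.natCast_val]
    rfl
  unfold Gam
  rw [dif_pos hpD, MonoidHom.mem_ker]
  exact this _ _

lemma T2_pi (p : ℕ) (hp : p ∈ ([2, 3, 5] : List ℕ)) (u : (ZMod (60 * 7))ˣ)
    (hu : u ∈ Gam (60 * 7) p) : ZMod.unitsMap (Dvd.intro 7 rfl : 60 ∣ 60 * 7) u ∈ Gam 60 p := by
  have h1 : p = 2 ∨ p = 3 ∨ p = 5 := by simpa using hp
  have hv : ((ZMod.unitsMap (Dvd.intro 7 rfl : 60 ∣ 60 * 7) u : (ZMod 60)ˣ) : ZMod 60).val =
      (u : ZMod (60 * 7)).val % 60 := by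
    rw [ZMod.unitsMap_def, Units.coe_map]
    have : ((ZMod.castHom (Dvd.intro 7 rfl : 60 ∣ 60 * 7) (ZMod 60) (u : ZMod (60 * 7)))) =
        (((u : ZMod (60 * 7)).val : ℕ) : ZMod 60) := by
      rw [ZMod.natCast_val]; rfl
    rw [← ZMod.val_natCast, ← this]
    rfl
  rcases h1 with rfl | rfl | rfl
  · rw [T2_mem _ _ (by norm_num)] at hu ⊢
    rw [hv]
    have e1 : 60 * 7 / 2 = 210 := by norm_num
    have e2 : 60 / 2 = 30 := by norm_num
    rw [e1] at hu
    rw [e2]
    unfold Nat.ModEq at *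
    omega
  · rw [T2_mem _ _ (by norm_num)] at hu ⊢
    rw [hv]
    have e1 : 60 * 7 / 3 = 140 := by norm_num
    have e2 : 60 / 3 = 20 := by norm_num
    rw [e1] at hu
    rw [e2]
    unfold Nat.ModEq at *
    omega
  · rw [T2_mem _ _ (by norm_num)] at hu ⊢
    rw [hv]
    have e1 : 60 * 7 / 5 = 84 := by norm_num
    have e2 : 60 / 5 = 12 := by norm_num
    rw [e1] at hu
    rw [e2]
    unfold Nat.ModEq at *
    omega

/-- the unit `n` -/
def T2_u (n : ℕ) (h : n.Coprime (60 * 7)) : (ZMod (60 * 7))ˣ := ZMod.unitOfCoprime n h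

lemma T2_two (u : (ZMod (60 * 7))ˣ) (hu : u ∈ Gam (60 * 7) 2) :
    u = 1 ∨ u = T2_u 211 (by norm_num) := by
  rw [T2_mem _ _ (by norm_num)] at hu
  have e1 : 60 * 7 / 2 = 210 := by norm_num
  rw [e1] at hu
  have h1 : (u : ZMod (60 * 7)).val < 60 * 7 := ZMod.val_lt _
  unfold Nat.ModEq at hu
  have h2 : (u : ZMod (60 * 7)).val = 1 ∨ (u : ZMod (60 * 7)).val = 211 := by omega
  rcases h2 with h | h
  · left
    apply Units.ext
    rw [← ZMod.natCast_zmod_val (u : ZMod (60 * 7)), h]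
    simp
  · right
    apply Units.ext
    rw [← ZMod.natCast_zmod_val (u : ZMod (60 * 7)), h]
    simp [T2_u, ZMod.coe_unitOfCoprime]

lemma T2_three (u : (ZMod (60 * 7))ˣ) (hu : u ∈ Gam (60 * 7) 3) :
    u = 1 ∨ u = T2_u 281 (by norm_num) := by
  rw [T2_mem _ _ (by norm_num)] at hu
  have e1 : 60 * 7 / 3 = 140 := by norm_num
  rw [e1] at hu
  have h1 : (u : ZMod (60 * 7)).val < 60 * 7 := ZMod.val_lt _
  unfold Nat.ModEq at hu
  have h3 := ZMod.val_coe_unit_coprime u
  have h2 : (u : ZMod (60 * 7)).val = 1 ∨ (u : ZMod (60 * 7)).val = 141 ∨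
      (u : ZMod (60 * 7)).val = 281 := by omega
  rcases h2 with h | h | h
  · left
    apply Units.ext
    rw [← ZMod.natCast_zmod_val (u : ZMod (60 * 7)), h]
    simp
  · rw [h] at h3
    exact absurd h3 (by norm_num)
  · right
    apply Units.ext
    rw [← ZMod.natCast_zmod_val (u : ZMod (60 * 7)), h]
    simp [T2_u, ZMod.coe_unitOfCoprime]

/-- the algebraic part -/
lemma T2_alg {G : Type*} [CommGroup G] (Γ : ℕ → Subgroup G) (f : G → ℤ) (n2 n3 : G)
    (h22 : n2 * n2 = 1) (h33 : n3 * n3 = 1) (h2 : ∀ u ∈ Γ 2, u = 1 ∨ u = n2)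
    (h3 : ∀ u ∈ Γ 3, u = 1 ∨ u = n3)
    (ht : MDv Γ [2, 3, 5] (fun x => f (n2 * n3 * x) + f x)) : MDv Γ [2, 3, 5] f := by
  intro u2 hu2
  rcases h2 u2 hu2 with rfl | rfl
  · apply TA_zero
    intro x
    simp
  · intro u3 hu3
    rcases h3 u3 hu3 with rfl | rfl
    · apply TA_zero
      intro x
      simp
    · intro u5 hu5 x
      have h := ht u2 hu2 u3 hu3 u5 hu5 x
      have a1 : ∀ y, u2 * u3 * (u2 * (u3 * y)) = y := by
        intro y
        calc u2 * u3 * (u2 * (u3 * y)) = (u2 * u2) * (u3 * u3) * y := by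
              simp only [mul_left_comm, mul_comm]
          _ = y := by rw [h22, h33]; simp
      have a2 : ∀ y, u2 * u3 * (u2 * y) = u3 * y := by
        intro y
        calc u2 * u3 * (u2 * y) = (u2 * u2) * (u3 * y) := by
              simp only [mul_left_comm, mul_comm]
          _ = _ := by rw [h22]; simp
      have a3 : ∀ y, u2 * u3 * (u3 * y) = u2 * y := by
        intro y
        calc u2 * u3 * (u3 * y) = (u3 * u3) * (u2 * y) := by
              simp only [mul_left_comm, mul_comm]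
          _ = _ := by rw [h33]; simp
      have a4 : ∀ y, u2 * u3 * y = u2 * (u3 * y) := fun y => mul_assoc _ _ _
      simp only [a1, a2, a3] at h
      simp only [a4] at h
      simp only
      linarith

lemma T2_main (m : ℕ) [NeZero m] (hD : 60 * 7 ∣ m) (c0 : ZMod m → ℤ) (hT : TateF (anti c0))
    (hs : ∀ x, anti c0 x ≠ 0 → addOrderOf x = 60 * 7) :
    MDv (Gam (60 * 7)) [2, 3, 5]
      (fun z => anti c0 (emb (60 * 7) m (z : ZMod (60 * 7)))) := by
  have : NeZero (60 * 7) := ⟨by norm_num⟩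
  have : NeZero 60 := ⟨by norm_num⟩
  have p7 : Nat.Prime 7 := by norm_num
  have hco : Nat.Coprime 7 60 := by norm_num
  set f : (ZMod (60 * 7))ˣ → ℤ := fun z => anti c0 (emb (60 * 7) m (z : ZMod (60 * 7))) with hf
  have hfodd : ∀ x, f (-x) = - f x := by
    intro x
    rw [hf]
    simp only
    rw [Units.val_neg, emb_neg hD, anti_odd]
  have hpf : (60 : ℕ).primeFactors = {2, 3, 5} := by
    have : (60 : ℕ) = 2 ^ 2 * (3 * 5) := by norm_num
    rw [this, Nat.primeFactors_mul (by norm_num) (by norm_num),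
      Nat.primeFactors_prime_pow (by norm_num) (by norm_num),
      Nat.primeFactors_mul (by norm_num) (by norm_num), Nat.Prime.primeFactors (by norm_num),
      Nat.Prime.primeFactors (by norm_num)]
    rfl
  have hmd : MDv (Gam (60 * 7)) [7, 2, 3, 5] f := by
    refine mdiff m (anti c0) (anti_odd c0) hT (60 * 7) hD ?_ [7, 2, 3, 5] ?_
    · intro x h1 h2
      by_contra h0
      exact h2 (hs x h0)
    · intro p hp
      rw [Nat.primeFactors_mul (by norm_num) (by norm_num), hpf, p7.primeFactors] at hp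
      simp only [Finset.mem_union, Finset.mem_insert, Finset.mem_singleton] at hp
      rcases hp with (rfl | rfl | rfl) | rfl <;> simp
  have hc := cond m 7 60 p7 (by norm_num) hco hD c0 hT (by
    intro x h1 h2
    by_contra h0
    exact h2 (hs x h0)) [2, 3, 5] (by decide) (by rw [hpf]; rfl)
  rw [← hf] at hc
  set V := Vs (Dvd.intro 7 rfl : 60 ∣ 60 * 7) f with hV
  set π := ZMod.unitsMap (Dvd.intro 7 rfl : 60 ∣ 60 * 7) with hπ
  have hc2 := TA_comap (Gam (60 * 7)) (Gam 60) π [2, 3, 5] T2_pi _ hc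
  set s := T2_u 67 (by norm_num) with hs67
  have hπs : ZMod.unitOfCoprime 7 hco = π s := by
    apply Units.ext
    rw [hπ, ZMod.unitsMap_def, Units.coe_map, hs67, T2_u, ZMod.coe_unitOfCoprime,
      ZMod.coe_unitOfCoprime]
    rfl
  have hG := CO_G_mdv (60 * 7) 7 [2, 3, 5] f hmd
  have hGe := CO_G_eq 7 60 p7 hco f
  rw [← hV, ← hπ] at hGe
  have h6 : MDv (Gam (60 * 7)) [2, 3, 5] (fun z => 6 * (f z - f (s * z))) := by
    have h := TA_add _ _ _ _ hc2 (TA_sub _ _ _ _ hG (TA_shift _ _ _ hG s))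
    have e : (fun z => 6 * (f z - f (s * z))) = fun z => (V (π z) -
        V (ZMod.unitOfCoprime 7 hco * π z)) + (CO_G (60 * 7) 7 f z - CO_G (60 * 7) 7 f (s * z)) := by
      funext z
      rw [hGe z, hGe (s * z), hπs, ← map_mul]
      push_cast
      ring
    rw [e]
    exact h
  have h1 : MDv (Gam (60 * 7)) [2, 3, 5] (fun z => f z - f (s * z)) :=
    TA_div _ _ _ 6 (by norm_num) h6
  have h2 : MDv (Gam (60 * 7)) [2, 3, 5] (fun z => f z - f (s * (s * z))) := by
    have h := TA_add _ _ _ _ h1 (TA_shift _ _ _ h1 s)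
    have e : (fun z => f z - f (s * (s * z))) =
        fun z => (f z - f (s * z)) + (f (s * z) - f (s * (s * z))) := by
      funext z; ring
    rw [e]
    exact h
  have hg : ∀ u ∈ Gam (60 * 7) 7, MDv (Gam (60 * 7)) [2, 3, 5] (fun z => f (u * z) - f z) :=
    fun u hu => hmd u hu
  set w := T2_u 121 (by norm_num) with hw
  set n2 := T2_u 211 (by norm_num) with hn2
  set n3 := T2_u 281 (by norm_num) with hn3
  set n5 := T2_u 169 (by norm_num) with hn5
  set n7 := T2_u 181 (by norm_num) with hn7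
  have hw7 : w ∈ Gam (60 * 7) 7 := by
    rw [T2_mem _ _ (by norm_num), hw, T2_u, ZMod.coe_unitOfCoprime]
    decide
  have hn77 : n7 ∈ Gam (60 * 7) 7 := by
    rw [T2_mem _ _ (by norm_num), hn7, T2_u, ZMod.coe_unitOfCoprime]
    decide
  have e1 : s * s = w * n5 := by
    apply Units.ext
    rw [Units.val_mul, Units.val_mul, hs67, hw, hn5, T2_u, T2_u, T2_u, ZMod.coe_unitOfCoprime,
      ZMod.coe_unitOfCoprime, ZMod.coe_unitOfCoprime]
    decide
  have e2 : n2 * n2 = 1 := by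
    apply Units.ext
    rw [Units.val_mul, hn2, T2_u, ZMod.coe_unitOfCoprime]
    decide
  have e3 : n3 * n3 = 1 := by
    apply Units.ext
    rw [Units.val_mul, hn3, T2_u, ZMod.coe_unitOfCoprime]
    decide
  have e4 : n5 * n7 * (n2 * n3) = -1 := by
    apply Units.ext
    rw [Units.val_mul, Units.val_mul, Units.val_mul, hn2, hn3, hn5, hn7, T2_u, T2_u, T2_u, T2_u,
      ZMod.coe_unitOfCoprime, ZMod.coe_unitOfCoprime, ZMod.coe_unitOfCoprime,
      ZMod.coe_unitOfCoprime]
    decide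
  -- invariance under `n5`
  have h5 : MDv (Gam (60 * 7)) [2, 3, 5] (fun z => f (n5 * z) - f z) := by
    have h := TA_neg _ _ _ (TA_add _ _ _ _ h2 (TA_shift _ _ _ (hg w hw7) n5))
    have e : (fun z => f (n5 * z) - f z) =
        fun z => -((f z - f (s * (s * z))) + (f (w * (n5 * z)) - f (n5 * z))) := by
      funext z
      have : s * (s * z) = w * (n5 * z) := by rw [← mul_assoc, e1, mul_assoc]
      rw [this]
      ring
    rw [e]
    exact h
  have h57 : MDv (Gam (60 * 7)) [2, 3, 5] (fun z => f (n5 * (n7 * z)) - f z) := by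
    have h := TA_add _ _ _ _ (TA_shift _ _ _ h5 n7) (hg n7 hn77)
    have e : (fun z => f (n5 * (n7 * z)) - f z) =
        fun z => (f (n5 * (n7 * z)) - f (n7 * z)) + (f (n7 * z) - f z) := by
      funext z; ring
    rw [e]
    exact h
  apply T2_alg (Gam (60 * 7)) f n2 n3 e2 e3 T2_two T2_three
  have h := TA_neg _ _ _ (TA_shift _ _ _ h57 (n2 * n3))
  have e : (fun x => f (n2 * n3 * x) + f x) =
      fun x => -(f (n5 * (n7 * (n2 * n3 * x))) - f (n2 * n3 * x)) := by
    funext x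
    have : n5 * (n7 * (n2 * n3 * x)) = - x := by
      rw [← mul_assoc, ← mul_assoc, e4, neg_one_mul]
    rw [this, hfodd]
    ring
  rw [e]
  exact h

theorem t2 (m : ℕ) [NeZero m] (hD : 420 ∣ m) (c0 : ZMod m → ℤ) (hT : TateF (anti c0))
    (hs : ∀ x, anti c0 x ≠ 0 → addOrderOf x = 420) :
    MDv (Gam 420) [2, 3, 5] (fun z => anti c0 (emb 420 m (z : ZMod 420))) :=
  T2_main m hD c0 hT hs

end Pool.Agent.helper88.EF
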