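import Pool.Agent.helper63.EF.TA
import Pool.Agent.helper93.FQ.N3

/-! # Project EF, module T3: orders divisible by 420, the first step -/

namespace Pool.Agent.helper88.EF

open Finset Pool.Agent.helper76.LP

lemma TA_primes (D : ℕ) [NeZero D] (h420 : 420 ∣ D) (hpr : ∀ p ∈ D.primeFactors, p ≤ 7) :
    ([7, 2, 3, 5] : List ℕ).toFinset = D.primeFactors := by
  ext p
  constructor
  · intro hp
    have h1 : p = 7 ∨ p = 2 ∨ p = 3 ∨ p = 5 := by simpa using hp
    rw [Nat.mem_primeFactors]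
    rcases h1 with rfl | rfl | rfl | rfl
    · exact ⟨by norm_num, (by norm_num : 7 ∣ 420).trans h420, NeZero.ne D⟩
    · exact ⟨by norm_num, (by norm_num : 2 ∣ 420).trans h420, NeZero.ne D⟩
    · exact ⟨by norm_num, (by norm_num : 3 ∣ 420).trans h420, NeZero.ne D⟩
    · exact ⟨by norm_num, (by norm_num : 5 ∣ 420).trans h420, NeZero.ne D⟩
  · intro hp
    have h1 := hpr p hp
    have h2 := Nat.prime_of_mem_primeFactors hp
    interval_cases p
    · exact absurd h2 (by norm_num)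
    · exact absurd h2 (by norm_num)
    · simp
    · simp
    · exact absurd h2 (by norm_num)
    · simp
    · exact absurd h2 (by norm_num)
    · simp

lemma TA_neg_one (D : ℕ) [NeZero D] (h420 : 420 ∣ D) (hne : D ≠ 420) (h49 : ¬ 49 ∣ D)
    (hpr : ∀ p ∈ D.primeFactors, p ≤ 7) : (-1 : (ZMod D)ˣ) ∉ Pl (Gam D) [7, 2, 3, 5] := by
  apply neg_one_not D 7 [2, 3, 5] (TA_primes D h420 hpr)
  have hD0 : D ≠ 0 := NeZero.ne D
  obtain ⟨k, hk⟩ := h420
  have hk1 : k ≠ 1 := by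
    rintro rfl
    exact hne (by rw [hk])
  obtain ⟨p, hp, l, hl⟩ := Nat.exists_prime_and_dvd hk1
  have hpm : p ∈ D.primeFactors := by
    rw [Nat.mem_primeFactors]
    exact ⟨hp, ⟨420 * l, by rw [hk, hl]; ring⟩, hD0⟩
  have h1 := hpr p hpm
  interval_cases p
  · exact absurd hp (by norm_num)
  · exact absurd hp (by norm_num)
  · right; exact ⟨105 * l, by rw [hk, hl]; ring⟩
  · left; exact ⟨3, by norm_num, le_rfl, 140 * l, by rw [hk, hl]; ring⟩
  · exact absurd hp (by norm_num)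
  · left; exact ⟨5, by norm_num, by norm_num, 84 * l, by rw [hk, hl]; ring⟩
  · exact absurd hp (by norm_num)
  · exact absurd ⟨60 * l, by rw [hk, hl]; ring⟩ h49

lemma TA_map_neg {D p : ℕ} (h : p ∣ D) (x : (ZMod D)ˣ) :
    ZMod.unitsMap h (-x) = - ZMod.unitsMap h x := by
  apply Units.ext
  rw [ZMod.unitsMap_def, Units.coe_map, Units.val_neg, Units.val_neg, Units.coe_map]
  exact map_neg (ZMod.castHom h (ZMod p)) _

lemma T3_slot (D : ℕ) [NeZero D] (h7 : 7 ∣ D) (f : (ZMod D)ˣ → ℤ) (h12 : ∑ x, |f x| ≤ 12) :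
    ∃ a : (ZMod 7)ˣ, (∑ z : (ZMod D)ˣ, if ZMod.unitsMap h7 z = a then |f z| else 0) ≤ 2 := by
  by_contra hcon
  push Not at hcon
  have h1 : ∑ a : (ZMod 7)ˣ, (∑ z : (ZMod D)ˣ, if ZMod.unitsMap h7 z = a then |f z| else 0) =
      ∑ z, |f z| := by
    rw [Finset.sum_comm]
    apply Finset.sum_congr rfl
    intro z _
    rw [Finset.sum_ite_eq, if_pos (Finset.mem_univ _)]
  have h2 : ∑ a : (ZMod 7)ˣ, (3 : ℤ) ≤
      ∑ a : (ZMod 7)ˣ, (∑ z : (ZMod D)ˣ, if ZMod.unitsMap h7 z = a then |f z| else 0) :=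
    Finset.sum_le_sum fun a _ => hcon a
  have h3 : Fintype.card (ZMod 7)ˣ = 6 := by
    rw [ZMod.card_units_eq_totient]; decide
  rw [Finset.sum_const, Finset.card_univ, h3, h1] at h2
  norm_num at h2
  linarith

theorem t3 (D : ℕ) [NeZero D] (h420 : 420 ∣ D) (hne : D ≠ 420) (h49 : ¬ 49 ∣ D) (h7 : 7 ∣ D)
    (hpr : ∀ p ∈ D.primeFactors, p ≤ 7) (f : (ZMod D)ˣ → ℤ) (hodd : ∀ x, f (-x) = - f x)
    (hf : MDv (Gam D) [7, 2, 3, 5] f) (h12 : ∑ x, |f x| ≤ 12) :
    ∃ (N : (ZMod D)ˣ → ℤ) (a : (ZMod 7)ˣ), (∀ u ∈ Gam D 7, ∀ x, N (u * x) = N x) ∧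
      (∀ x, N (-x) = - N x) ∧ MDv (Gam D) [2, 3, 5] (fun z => f z - N z) ∧
      (∑ z : (ZMod D)ˣ, if ZMod.unitsMap h7 z = a then |f z - N z| else 0) ≤ 2 := by
  classical
  have h49' : ¬ 7 * 7 ∣ D := by simpa using h49
  have p7 : Nat.Prime 7 := by norm_num
  obtain ⟨a, ha⟩ := T3_slot D h7 f h12
  obtain ⟨χ, hχ1, hχ2⟩ := N3_half (Pl (Gam D) [7, 2, 3, 5]) (-1 : (ZMod D)ˣ) (by simp)
    (TA_neg_one D h420 hne h49 hpr)
  have hχ3 : ∀ x, χ (-x) = 1 - χ x := by
    intro x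
    have := hχ2 x
    rwa [neg_one_mul] at this
  set π := ZMod.unitsMap h7 with hπ
  set σ := TA_s D 7 p7 h7 h49' with hσ
  have hσ1 : ∀ b, σ b ∈ Gam D 7 := TA_s_mem D 7 p7 h7 h49'
  have hσ2 : ∀ b, π (σ b) = b := TA_s_map D 7 p7 h7 h49'
  have hσ3 : ∀ u ∈ Gam D 7, σ (π u) = u := TA_s_of_mem D 7 p7 h7 h49'
  have hL : ∀ r ∈ ([2, 3, 5] : List ℕ), r.Prime ∧ r ∣ D ∧ r ≠ 7 := by
    intro r hr
    have h1 : r = 2 ∨ r = 3 ∨ r = 5 := by simpa using hr
    rcases h1 with rfl | rfl | rfl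
    · exact ⟨by norm_num, (by norm_num : 2 ∣ 420).trans h420, by norm_num⟩
    · exact ⟨by norm_num, (by norm_num : 3 ∣ 420).trans h420, by norm_num⟩
    · exact ⟨by norm_num, (by norm_num : 5 ∣ 420).trans h420, by norm_num⟩
  have hπ1 : ∀ w ∈ Pl (Gam D) [2, 3, 5], π w = 1 := fun w hw =>
    TA_res D 7 p7 h7 [2, 3, 5] hL w hw
  set r : (ZMod D)ˣ → (ZMod D)ˣ := fun x => σ (a * (π x)⁻¹) * x with hr
  have hr2 : ∀ u ∈ Gam D 7, ∀ x, r (u * x) = r x := by
    intro u hu x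
    have e : σ (a * (π (u * x))⁻¹) = σ (a * (π x)⁻¹) * u⁻¹ := by
      rw [map_mul π, mul_inv_rev, ← mul_assoc, map_mul σ, map_inv σ (π u), hσ3 u hu]
    simp only [hr]
    rw [e]
    group
  have hr3 : ∀ x, π x = a → r x = x := by
    intro x hx
    simp only [hr]
    rw [hx, mul_inv_cancel, map_one, one_mul]
  set ν := σ (-1) with hν
  have hνν : ν * ν = 1 := by
    rw [hν, ← map_mul]; simp
  have hπν : π ν = -1 := hσ2 _
  have hr4 : ∀ x, r (-x) = -(ν * r x) := by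
    intro x
    simp only [hr]
    rw [hπ, TA_map_neg, ← hπ]
    have e : a * (-π x)⁻¹ = -1 * (a * (π x)⁻¹) := by
      rw [inv_neg]
      simp
    rw [e, map_mul, ← hν, mul_neg, mul_assoc]
  refine ⟨fun x => if 1 ≤ χ x then f (ν * r x) else f (r x), a, ?_, ?_, ?_, ?_⟩
  · intro u hu x
    simp only
    rw [hr2 u hu x, hχ1 u (Subgroup.mem_sup_left hu) x]
  · intro x
    simp only
    rw [hr4 x, hχ3 x]
    by_cases h : 1 ≤ χ x
    · rw [if_neg (by omega), if_pos h, hodd]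
    · rw [if_pos (by omega), if_neg h, mul_neg, hodd, ← mul_assoc, hνν, one_mul]
  · apply mdv_local
    intro x
    have hχw : ∀ w ∈ Pl (Gam D) [2, 3, 5], χ (w * x) = χ x := fun w hw =>
      hχ1 w (Subgroup.mem_sup_right hw) x
    have hrw : ∀ w ∈ Pl (Gam D) [2, 3, 5], r (w * x) = σ (a * (π x)⁻¹) * (w * x) := by
      intro w hw
      simp only [hr]
      rw [map_mul π, hπ1 w hw, one_mul]
    by_cases h : 1 ≤ χ x
    · refine ⟨fun y => -(f ((ν * σ (a * (π x)⁻¹)) * y) - f y),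
        TA_neg _ _ _ (hf _ ((Gam D 7).mul_mem (hσ1 _) (hσ1 _))), ?_⟩
      intro w hw
      simp only
      rw [hχw w hw, if_pos h, hrw w hw, mul_assoc ν]
      ring
    · refine ⟨fun y => -(f (σ (a * (π x)⁻¹) * y) - f y), TA_neg _ _ _ (hf _ (hσ1 _)), ?_⟩
      intro w hw
      simp only
      rw [hχw w hw, if_neg h, hrw w hw]
      ring
  · refine le_trans ?_ ha
    set A : (ZMod D)ˣ → ℤ := fun z => if π z = a ∧ 1 ≤ χ z then |f z| else 0 with hA
    set B : (ZMod D)ˣ → ℤ := fun z => if π z = a ∧ 1 ≤ χ z then |f (-ν * z)| else 0 with hB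
    have h1 : ∀ z, (if π z = a then |f z - (if 1 ≤ χ z then f (ν * r z) else f (r z))| else 0) ≤
        A z + B z := by
      intro z
      by_cases hz : π z = a
      · simp only [hA, hB, hz, true_and, if_true, hr3 z hz]
        by_cases h : 1 ≤ χ z
        · simp only [h, if_true]
          have e : f (ν * z) = - f (-ν * z) := by
            rw [neg_mul, hodd, neg_neg]
          rw [e, sub_neg_eq_add]
          exact abs_add_le _ _
        · simp [h]
      · simp [hA, hB, hz]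
    have h2 : ∑ z, B z = ∑ z, B (-ν * z) :=
      (Equiv.sum_comp (Equiv.mulLeft (-ν)) B).symm
    have h3 : ∀ z, A z + B (-ν * z) ≤ if π z = a then |f z| else 0 := by
      intro z
      have e1 : π (-ν * z) = π z := by
        rw [map_mul, hπ, TA_map_neg, ← hπ, hπν, neg_neg, one_mul]
      have e2 : χ (-ν * z) = 1 - χ z := by
        rw [neg_mul, hχ3, hχ1 ν (Subgroup.mem_sup_left (hσ1 _))]
      have e3 : -ν * (-ν * z) = z := by
        rw [← mul_assoc, neg_mul_neg, hνν, one_mul]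
      simp only [hA, hB, e1, e2, e3]
      by_cases hz : π z = a
      · by_cases h : 1 ≤ χ z
        · have h' : ¬ χ z ≤ 0 := by omega
          simp [hz, h]
          rw [if_neg h']
        · have : χ z ≤ 0 := by omega
          simp [hz, h]
          rw [if_pos this]
      · simp [hz]
    calc _ ≤ ∑ z, (A z + B z) := Finset.sum_le_sum fun z _ => h1 z
      _ = ∑ z, (A z + B (-ν * z)) := by
        rw [Finset.sum_add_distrib, h2, ← Finset.sum_add_distrib]
      _ ≤ _ := Finset.sum_le_sum fun z _ => h3 z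

end Pool.Agent.helper88.EF
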