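import Pool.Agent.helper63.EF.T3
import Pool.Agent.helper63.EF.T2
import Pool.Agent.helper13.EF.DL
import Pool.Agent.helper82.EF.GF
import Pool.Agent.helper1.EF.FN

/-! # Project EF, module T4: orders divisible by 420, the next steps -/

namespace Pool.Agent.helper88.EF

open Finset Pool.Agent.helper76.LP

/-! ### the signed indicator of a cube -/

section cube
variable {G : Type*} [CommGroup G]

/-- sign of a vertex -/
def T4_e (b : Bool × Bool × Bool) : ℤ := -(sg b.1 * sg b.2.1 * sg b.2.2)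

/-- vertex of the cube -/
def T4_g (v : ℕ → G) (b : Bool × Bool × Bool) : G :=
  (if b.1 then v 2 else 1) * ((if b.2.1 then v 3 else 1) * (if b.2.2 then v 5 else 1))

lemma T4_dl (v : ℕ → G) (f : G → ℤ) (x : G) :
    dl v [2, 3, 5] f x = ∑ b : Bool × Bool × Bool, T4_e b * f (T4_g v b * x) := by
  simp only [dl, Fintype.sum_prod_type, Fintype.sum_bool, T4_e, T4_g, sg, if_true, if_false,
    Bool.false_eq_true, mul_one, one_mul, mul_assoc]
  ring

open Classical in
/-- the signed indicator of the cube at `y` -/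
noncomputable def T4_phi (v : ℕ → G) (y x : G) : ℤ :=
  ∑ b : Bool × Bool × Bool, T4_e b * (if T4_g v b * y = x then 1 else 0)

lemma T4_phi_sum [Fintype G] (v : ℕ → G) (f : G → ℤ) (y : G) :
    ∑ x, f x * T4_phi v y x = dl v [2, 3, 5] f y := by
  classical
  rw [T4_dl]
  unfold T4_phi
  simp_rw [Finset.mul_sum]
  rw [Finset.sum_comm]
  apply Finset.sum_congr rfl
  intro b _
  rw [Finset.sum_eq_single (T4_g v b * y)]
  · simp; ring
  · intro x _ hx
    rw [if_neg (Ne.symm hx)]; simp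
  · intro h; exact absurd (Finset.mem_univ _) h

lemma T4_phi_supp (v : ℕ → G) (y x : G) (h : T4_phi v y x ≠ 0) : ∃ b, T4_g v b * y = x := by
  classical
  by_contra hno
  push Not at hno
  apply h
  unfold T4_phi
  apply Finset.sum_eq_zero
  intro b _
  rw [if_neg (hno b), mul_zero]

/-- invariance in one direction -/
lemma T4_dl_zero (v : ℕ → G) (f : G → ℤ) (p : ℕ) (hp : p ∈ ([2, 3, 5] : List ℕ))
    (hf : ∀ x, f (v p * x) = f x) (x : G) : dl v [2, 3, 5] f x = 0 := by
  rw [dl_erase v _ p hp, ← DL_dl_lin]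
  have e : (fun y => f (v p * y) - f y) = fun _ => (0 : ℤ) := by
    funext y; rw [hf, sub_self]
  rw [e]
  have h0 : ∀ L : List ℕ, dl v L (fun _ : G => (0 : ℤ)) x = 0 := by
    intro L
    induction L with
    | nil => rfl
    | cons q L ih =>
      have : dl v (q :: L) (fun _ : G => (0 : ℤ)) x = dl v L (fun _ => (0 : ℤ) - 0) x := rfl
      rw [this, sub_zero]
      exact ih
  exact h0 _

lemma T4_phi_gsum [Fintype G] (v : ℕ → G) (H : Subgroup G) (p : ℕ)
    (hp : p ∈ ([2, 3, 5] : List ℕ)) (hv : v p ∈ H) (y z : G) : gsum H (T4_phi v y) z = 0 := by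
  classical
  have h1 : gsum H (T4_phi v y) z = dl v [2, 3, 5] (fun w => if w * z⁻¹ ∈ H then 1 else 0) y := by
    rw [T4_dl]
    unfold gsum T4_phi
    have e : ∀ w : G, (if w ∈ H then ∑ b : Bool × Bool × Bool,
        T4_e b * (if T4_g v b * y = w * z then 1 else 0) else 0) =
        ∑ b : Bool × Bool × Bool, T4_e b * (if w = T4_g v b * y * z⁻¹ ∧
          T4_g v b * y * z⁻¹ ∈ H then 1 else 0) := by
      intro w
      have e1 : ∀ b, (T4_g v b * y = w * z) ↔ (w = T4_g v b * y * z⁻¹) := by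
        intro b
        rw [eq_mul_inv_iff_mul_eq, eq_comm]
      by_cases hw : w ∈ H
      · rw [if_pos hw]
        apply Finset.sum_congr rfl
        intro b _
        congr 1
        by_cases h : w = T4_g v b * y * z⁻¹
        · rw [if_pos ((e1 b).2 h), if_pos ⟨h, h ▸ hw⟩]
        · rw [if_neg (fun h' => h ((e1 b).1 h')), if_neg (fun h' => h h'.1)]
      · rw [if_neg hw]
        symm
        apply Finset.sum_eq_zero
        intro b _
        rw [if_neg, mul_zero]
        rintro ⟨h, h'⟩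
        exact hw (h ▸ h')
    rw [Finset.sum_congr rfl fun w _ => e w, Finset.sum_comm]
    apply Finset.sum_congr rfl
    intro b _
    rw [← Finset.mul_sum]
    congr 1
    rw [Finset.sum_eq_single (T4_g v b * y * z⁻¹)]
    · simp
    · intro w _ hw
      rw [if_neg fun h => hw h.1]
    · intro h; exact absurd (Finset.mem_univ _) h
  rw [h1]
  apply T4_dl_zero v _ p hp
  intro x
  have : v p * x * z⁻¹ ∈ H ↔ x * z⁻¹ ∈ H := by
    rw [mul_assoc]
    exact H.mul_mem_cancel_left hv
  simp only [this]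

omit [CommGroup G] in
lemma T4_one {ι : Type*} [Fintype ι] [DecidableEq G] (s : ι → ℤ) (hs : ∀ i, |s i| ≤ 1)
    (g : ι → G) (hg : Function.Injective g) (x : G) :
    |∑ i, s i * (if g i = x then 1 else 0)| ≤ 1 := by
  classical
  by_cases h : ∃ i, g i = x
  · obtain ⟨i, hi⟩ := h
    rw [Finset.sum_eq_single i]
    · rw [if_pos hi, mul_one]; exact hs i
    · intro j _ hj
      rw [if_neg, mul_zero]
      intro h
      exact hj (hg (h.trans hi.symm))
    · intro h; exact absurd (Finset.mem_univ _) h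
  · rw [Finset.sum_eq_zero]
    · simp
    · intro i _
      rw [if_neg fun hi => h ⟨i, hi⟩, mul_zero]

lemma T4_c1 (a b c a' b' c' : G) :
    a * a'⁻¹ * (b * b'⁻¹ * (c * c'⁻¹)) = a * (b * c) * (a' * (b' * c'))⁻¹ := by
  rw [mul_inv, mul_inv]
  simp only [mul_assoc, mul_left_comm]

lemma T4_c2 (n a b c : G) :
    n * n * (a * a * (b * b * (c * c))) = n * (a * (b * c)) * (n * (a * (b * c))) := by
  simp only [mul_left_comm, mul_comm]

lemma T4_uniq (Γ : ℕ → Subgroup G) (hI : Indep Γ [7, 2, 3, 5]) (a b c d : G) (ha : a ∈ Γ 7)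
    (hb : b ∈ Γ 2) (hc : c ∈ Γ 3) (hd : d ∈ Γ 5) (h : a * (b * (c * d)) = 1) :
    a = 1 ∧ b = 1 ∧ c = 1 ∧ d = 1 := by
  obtain ⟨i1, i2, i3, -⟩ := hI
  simp only [Pl, sup_bot_eq] at i1 i2 i3
  have k1 : c * d ∈ Γ 3 ⊔ Γ 5 := Subgroup.mul_mem_sup hc hd
  have k2 : b * (c * d) ∈ Γ 2 ⊔ (Γ 3 ⊔ Γ 5) := Subgroup.mul_mem_sup hb k1
  have ha1 : a = 1 := by
    apply Subgroup.disjoint_def.1 i1 ha
    rw [eq_inv_of_mul_eq_one_left h]
    exact inv_mem k2
  rw [ha1, one_mul] at h
  have hb1 : b = 1 := by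
    apply Subgroup.disjoint_def.1 i2 hb
    rw [eq_inv_of_mul_eq_one_left h]
    exact inv_mem k1
  rw [hb1, one_mul] at h
  have hc1 : c = 1 := by
    apply Subgroup.disjoint_def.1 i3 hc
    rw [eq_inv_of_mul_eq_one_left h]
    exact inv_mem hd
  rw [hc1, one_mul] at h
  exact ⟨ha1, hb1, hc1, h⟩

lemma T4_inj (Γ : ℕ → Subgroup G) (hI : Indep Γ [7, 2, 3, 5]) (v : ℕ → G)
    (hv : ∀ p ∈ ([2, 3, 5] : List ℕ), v p ∈ Γ p) (hv1 : ∀ p ∈ ([2, 3, 5] : List ℕ), v p ≠ 1)
    (e ν : G) (he : e * e = 1) (hν : ν ∈ Γ 7) (hνν : ν * ν = 1)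
    (h1 : e ∉ Pl Γ [7, 2, 3, 5] ∨ (v 5 * v 5 ≠ 1 ∧ e ∉ Pl Γ [7, 2, 3])) (z : G) :
    Function.Injective (fun i : Bool × (Bool × Bool × Bool) =>
      T4_g v i.2 * (if i.1 then e * ν * z else z)) := by
  have m2 : ∀ b : Bool, (if b then v 2 else 1) ∈ Γ 2 := by
    intro b; cases b
    · exact one_mem _
    · exact hv 2 (by simp)
  have m3 : ∀ b : Bool, (if b then v 3 else 1) ∈ Γ 3 := by
    intro b; cases b
    · exact one_mem _
    · exact hv 3 (by simp)
  have m5 : ∀ b : Bool, (if b then v 5 else 1) ∈ Γ 5 := by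
    intro b; cases b
    · exact one_mem _
    · exact hv 5 (by simp)
  have q : ∀ p ∈ ([2, 3, 5] : List ℕ), ∀ b b' : Bool,
      (if b then v p else 1) * (if b' then v p else 1)⁻¹ = 1 → b = b' := by
    intro p hp b b' h
    have := hv1 p hp
    cases b <;> cases b' <;> simp_all
  have q5 : v 5 * v 5 ≠ 1 → ∀ b b' : Bool,
      ((if b then v 5 else 1) * (if b' then v 5 else 1)⁻¹) *
        ((if b then v 5 else 1) * (if b' then v 5 else 1)⁻¹) = 1 →
      (if b then v 5 else 1) * (if b' then v 5 else 1)⁻¹ = 1 := by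
    intro h5 b b' h
    cases b <;> cases b'
    · simp
    · exfalso; apply h5
      have : (v 5)⁻¹ * (v 5)⁻¹ = 1 := by simpa using h
      rw [← mul_inv, inv_eq_one] at this
      exact this
    · exfalso; apply h5
      simpa using h
    · simp
  rintro ⟨c, b2, b3, b5⟩ ⟨c', b2', b3', b5'⟩ h
  simp only [T4_g] at h
  set a2 := (if b2 then v 2 else 1) with ha2
  set a3 := (if b3 then v 3 else 1) with ha3
  set a5 := (if b5 then v 5 else 1) with ha5
  set a2' := (if b2' then v 2 else 1) with ha2'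
  set a3' := (if b3' then v 3 else 1) with ha3'
  set a5' := (if b5' then v 5 else 1) with ha5'
  have n2 : a2 * a2'⁻¹ ∈ Γ 2 := mul_mem (m2 b2) (inv_mem (m2 b2'))
  have n3 : a3 * a3'⁻¹ ∈ Γ 3 := mul_mem (m3 b3) (inv_mem (m3 b3'))
  have n5 : a5 * a5'⁻¹ ∈ Γ 5 := mul_mem (m5 b5) (inv_mem (m5 b5'))
  have hprod : a2 * a2'⁻¹ * (a3 * a3'⁻¹ * (a5 * a5'⁻¹)) =
      a2 * (a3 * a5) * (a2' * (a3' * a5'))⁻¹ := T4_c1 _ _ _ _ _ _
  by_cases hc : c = c'
  · subst hc
    have h2 : a2 * (a3 * a5) = a2' * (a3' * a5') := mul_right_cancel h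
    obtain ⟨-, r2, r3, r5⟩ := T4_uniq Γ hI 1 _ _ _ (one_mem _) n2 n3 n5 (by
      rw [one_mul, hprod, h2, mul_inv_cancel])
    rw [q 2 (by simp) b2 b2' r2, q 3 (by simp) b3 b3' r3, q 5 (by simp) b5 b5' r5]
  · exfalso
    have hk : e * ν * (e * ν) = 1 := by
      rw [mul_mul_mul_comm, he, hνν, one_mul]
    have h3 : a2 * a2'⁻¹ * (a3 * a3'⁻¹ * (a5 * a5'⁻¹)) = e * ν := by
      rw [hprod, mul_inv_eq_iff_eq_mul]
      cases c <;> cases c'
      · exact absurd rfl hc
      · have h4 : a2 * (a3 * a5) * z = (e * ν) * (a2' * (a3' * a5')) * z := by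
          have h5 : a2 * (a3 * a5) * z = a2' * (a3' * a5') * (e * ν * z) := by simpa using h
          rw [h5, ← mul_assoc, mul_comm (a2' * (a3' * a5')) (e * ν)]
        exact mul_right_cancel h4
      · have h4 : (e * ν) * (a2 * (a3 * a5)) * z = a2' * (a3' * a5') * z := by
          have h5 : a2 * (a3 * a5) * (e * ν * z) = a2' * (a3' * a5') * z := by simpa using h
          rw [← h5, mul_comm (e * ν) (a2 * (a3 * a5)), mul_assoc (a2 * (a3 * a5))]
        have h6 := mul_right_cancel h4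
        rw [← h6, ← mul_assoc (e * ν) (e * ν), hk, one_mul]
      · exact absurd rfl hc
    have h4 : e = ν * (a2 * a2'⁻¹ * (a3 * a3'⁻¹ * (a5 * a5'⁻¹))) := by
      rw [h3, mul_left_comm, hνν, mul_one]
    rcases h1 with h1 | ⟨h5, h1⟩
    · apply h1
      rw [h4]
      refine Subgroup.mul_mem_sup hν (Subgroup.mul_mem_sup n2 (Subgroup.mul_mem_sup n3 ?_))
      simp only [Pl, sup_bot_eq]
      exact n5
    · have h6 : (ν * ν) * ((a2 * a2'⁻¹) * (a2 * a2'⁻¹) * ((a3 * a3'⁻¹) * (a3 * a3'⁻¹) *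
          ((a5 * a5'⁻¹) * (a5 * a5'⁻¹)))) = 1 := by
        rw [T4_c2, ← h4, he]
      obtain ⟨-, -, -, r5⟩ := T4_uniq Γ hI _ _ _ _ (mul_mem hν hν) (mul_mem n2 n2) (mul_mem n3 n3)
        (mul_mem n5 n5) h6
      have r := q5 h5 b5 b5' r5
      rw [← ha5, ← ha5'] at r
      rw [r, mul_one] at h4
      apply h1
      rw [h4]
      refine Subgroup.mul_mem_sup hν (Subgroup.mul_mem_sup n2 ?_)
      simp only [Pl, sup_bot_eq]
      exact n3

lemma T4_phi_bd (Γ : ℕ → Subgroup G) (hI : Indep Γ [7, 2, 3, 5]) (v : ℕ → G)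
    (hv : ∀ p ∈ ([2, 3, 5] : List ℕ), v p ∈ Γ p) (hv1 : ∀ p ∈ ([2, 3, 5] : List ℕ), v p ≠ 1)
    (e ν : G) (he : e * e = 1) (hν : ν ∈ Γ 7) (hνν : ν * ν = 1)
    (h1 : e ∉ Pl Γ [7, 2, 3, 5] ∨ (v 5 * v 5 ≠ 1 ∧ e ∉ Pl Γ [7, 2, 3])) (z x : G) :
    |T4_phi v z x - T4_phi v (e * ν * z) x| ≤ 1 := by
  classical
  have h := T4_one (fun i : Bool × (Bool × Bool × Bool) => sg i.1 * T4_e i.2) (by
    rintro ⟨b1, b2, b3, b4⟩
    cases b1 <;> cases b2 <;> cases b3 <;> cases b4 <;> simp [sg, T4_e]) _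
    (T4_inj Γ hI v hv hv1 e ν he hν hνν h1 z) x
  have e1 : T4_phi v z x - T4_phi v (e * ν * z) x = ∑ i : Bool × (Bool × Bool × Bool),
      (sg i.1 * T4_e i.2) * (if T4_g v i.2 * (if i.1 then e * ν * z else z) = x then 1 else 0) := by
    rw [Fintype.sum_prod_type, Fintype.sum_bool]
    unfold T4_phi
    simp only [sg, if_true, Bool.false_eq_true, if_false, one_mul, neg_mul,
      Finset.sum_neg_distrib]
    ring
  rw [e1]
  exact h

end cube

/-! ### the extension of a test function at the points of order `D` -/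

lemma T4_iter (m D' : ℕ) [NeZero m] [NeZero D'] (ψ : (ZMod D')ˣ → ℤ) (s : ZMod m → ℚ)
    (hs : Ext m D' 7 ψ s) : ∀ r : ℕ, 0 < r → (∀ p : ℕ, p.Prime → p ∣ r → p ≠ 7 ∧ p ∣ D') →
      ∀ x : ZMod m, addOrderOf x = D' * r → s x = s ((r : ZMod m) * x) / r := by
  intro r
  induction r using Nat.strong_induction_on with
  | _ r ih =>
    intro hr hpr x hx
    by_cases h1 : r = 1
    · subst h1; simp
    · obtain ⟨p, hp, k, hk⟩ := Nat.exists_prime_and_dvd h1
      obtain ⟨hp7, hpD⟩ := hpr p hp ⟨k, hk⟩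
      have hk0 : 0 < k := Nat.pos_of_ne_zero (by rintro rfl; omega)
      have hD0 : 0 < D' := Nat.pos_of_ne_zero (NeZero.ne D')
      have e1 := hs.mul p hp hp7 x (by rw [hx, hk]; exact ⟨k, by ring⟩) (Or.inl hpD)
      have hox : addOrderOf ((p : ZMod m) * x) = D' * k := by
        rw [← nsmul_eq_mul, addOrderOf_nsmul' x hp.ne_zero, hx, hk]
        have : Nat.gcd (D' * (p * k)) p = p :=
          Nat.gcd_eq_right ⟨D' * k, by ring⟩
        rw [this]
        apply Nat.div_eq_of_eq_mul_right hp.pos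
        ring
      have hkr : k < r := by
        rw [hk]
        have := hp.two_le
        nlinarith
      have e2 := ih k hkr hk0 (fun p' hp' hd => hpr p' hp' (hk ▸ dvd_mul_of_dvd_right hd p))
        ((p : ZMod m) * x) hox
      rw [e1, e2, hk]
      have e3 : ((p * k : ℕ) : ZMod m) * x = (k : ZMod m) * ((p : ZMod m) * x) := by
        push_cast; ring
      rw [e3]
      have h3 : (p : ℚ) ≠ 0 := by exact_mod_cast hp.ne_zero
      have h4 : (k : ℚ) ≠ 0 := by exact_mod_cast hk0.ne'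
      push_cast
      field_simp

lemma T4_sum (m D : ℕ) [NeZero m] [NeZero D] (hD : D ∣ m) (g : ZMod m → ℚ)
    (hg : ∀ x, addOrderOf x ≠ D → g x = 0) : ∑ x, g x = ∑ w : (ZMod D)ˣ, g (emb D m (w : ZMod D)) := by
  classical
  have h1 : ∑ x, g x = ∑ x ∈ (univ.image fun z : (ZMod D)ˣ => emb D m (z : ZMod D)), g x := by
    symm
    apply Finset.sum_subset (Finset.subset_univ _)
    intro x _ hx
    apply hg
    intro h
    obtain ⟨z, hz⟩ := exists_emb x h
    exact hx (Finset.mem_image.2 ⟨z, Finset.mem_univ _, hz⟩)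
  rw [h1, Finset.sum_image]
  intro z _ w _ h
  exact Units.ext (emb_injective hD h)

lemma T4_gen5 : Subgroup.closure ({ZMod.unitOfCoprime 2 (by norm_num)} : Set (ZMod 5)ˣ) = ⊤ := by
  rw [eq_top_iff]
  intro x _
  have h : ∀ x : (ZMod 5)ˣ, ∃ k : Fin 4, (x : ZMod 5) = 2 ^ (k : ℕ) := by decide
  obtain ⟨k, hk⟩ := h x
  have : x = (ZMod.unitOfCoprime 2 (by norm_num)) ^ (k : ℕ) := by
    apply Units.ext
    rw [hk, Units.val_pow_eq_pow_val, ZMod.coe_unitOfCoprime]
    rfl
  rw [this]
  exact Subgroup.pow_mem _ (Subgroup.subset_closure (Set.mem_singleton _)) _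

theorem t4 (m D D' : ℕ) [NeZero m] [NeZero D] [NeZero D'] (hD : D ∣ m) (hD' : D' ∣ m)
    (h420 : 420 ∣ D) (h420' : 420 ∣ D') (hne : D' < D) (h49 : ¬ 49 ∣ D) (h7 : 7 ∣ D)
    (hpr : ∀ p ∈ D.primeFactors, p ≤ 7) (hpr' : ∀ p ∈ D'.primeFactors, p ≤ 7)
    (c1 c : ZMod m → ℤ)
    (hT : TateF (anti c)) (hs : ∀ x, 7 ∣ addOrderOf x → anti c1 x ≠ 0 → addOrderOf x = D)
    (a : (ZMod 7)ˣ)
    (h2 : (∑ z : (ZMod D)ˣ, if ZMod.unitsMap h7 z = a then |anti c1 (emb D m (z : ZMod D))|
      else 0) ≤ 2)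
    (hQ : QEq 7 c1 c) (hmax : ∀ x, D' ∣ addOrderOf x → addOrderOf x ≠ D' → anti c x = 0) :
    MDv (Gam D') [2, 3, 5] (fun z => anti c (emb D' m (z : ZMod D'))) := by
  classical
  have p7 : Nat.Prime 7 := by norm_num
  have p5 : Nat.Prime 5 := by norm_num
  have h7' : 7 ∣ D' := (by norm_num : 7 ∣ 420).trans h420'
  have h5' : 5 ∣ D' := (by norm_num : 5 ∣ 420).trans h420'
  have hD0 : D ≠ 0 := NeZero.ne D
  have hD'0 : 0 < D' := Nat.pos_of_ne_zero (NeZero.ne D')
  set f : (ZMod D')ˣ → ℤ := fun z => anti c (emb D' m (z : ZMod D')) with hf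
  have hfodd : ∀ x, f (-x) = - f x := by
    intro x
    rw [hf]
    simp only
    rw [Units.val_neg, emb_neg hD', anti_odd]
  have hpf := TA_primes D' h420' hpr'
  have hmem : ∀ p ∈ ([7, 2, 3, 5] : List ℕ), p ∈ D'.primeFactors := by
    intro p hp
    rw [← hpf]
    exact List.mem_toFinset.2 hp
  have hmd : MDv (Gam D') [7, 2, 3, 5] f := by
    refine mdiff m (anti c) (anti_odd c) hT D' hD' hmax [7, 2, 3, 5] ?_
    intro p hp
    rw [← hpf] at hp
    exact List.mem_toFinset.1 hp
  have hI : Indep (Gam D') [7, 2, 3, 5] := indep_Gam D' _ (by decide) hmem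
  have hev : Even m := by
    rw [even_iff_two_dvd]
    exact ((by norm_num : 2 ∣ 420).trans h420').trans hD'
  have hnodd : ¬ Odd D' := by
    rw [Nat.not_odd_iff_even, even_iff_two_dvd]
    exact (by norm_num : 2 ∣ 420).trans h420'
  -- the generators
  set V : ℕ → Set (ZMod D')ˣ := fun p => if D' = 420 ∧ p = 5 then
    {v | v ∈ Gam D' 5 ∧ ZMod.unitsMap h5' v ∈
      ({ZMod.unitOfCoprime 2 (by norm_num)} : Set (ZMod 5)ˣ)} else Gam D' p with hV
  have hVsub : ∀ p, ∀ v ∈ V p, v ∈ Gam D' p := by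
    intro p v hv
    simp only [hV] at hv
    by_cases h : D' = 420 ∧ p = 5
    · rw [if_pos h] at hv
      rw [h.2]
      exact hv.1
    · rw [if_neg h] at hv
      exact hv
  apply mdv_of_dl (Gam D') [2, 3, 5] (by decide) V
  · intro p _
    simp only [hV]
    by_cases h : D' = 420 ∧ p = 5
    · rw [if_pos h, h.2]
      apply gam_closure D' 5 p5 h5' _ _ T4_gen5
      rw [h.1]
      norm_num
    · rw [if_neg h]
      exact Subgroup.subset_closure
  intro v hvV z
  have hv : ∀ p ∈ ([2, 3, 5] : List ℕ), v p ∈ Gam D' p := fun p hp => hVsub p _ (hvV p hp)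
  by_contra hdl
  have hv1 : ∀ p ∈ ([2, 3, 5] : List ℕ), v p ≠ 1 := by
    intro p hp h1
    apply hdl
    apply T4_dl_zero v f p hp
    intro x
    rw [h1, one_mul]
  -- the points with nonzero contribution have order `D`
  have hord : ∀ (ψ : (ZMod D')ˣ → ℤ) (s : ZMod m → ℚ), Ext m D' 7 ψ s →
      ∑ x, (anti c1 x : ℚ) * s x =
        ∑ w : (ZMod D)ˣ, (anti c1 (emb D m (w : ZMod D)) : ℚ) * s (emb D m (w : ZMod D)) := by
    intro ψ s hE
    apply T4_sum m D hD (fun x => (anti c1 x : ℚ) * s x)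
    intro x hx
    by_contra h0
    have h3 : anti c1 x ≠ 0 := by
      intro h; apply h0; rw [h]; simp
    have h4 : s x ≠ 0 := by
      intro h; apply h0; rw [h]; simp
    exact hx (hs x (h7'.trans (hE.supp x h4).1) h3)
  have hgs : ∀ y : (ZMod D')ˣ, ∀ p ∈ D'.primeFactors, p ≠ 7 → ∀ w,
      gsum (Gam D' p) (T4_phi v y) w = 0 := by
    intro y p hp h w
    have hpL : p ∈ ([2, 3, 5] : List ℕ) := by
      rw [← hpf, List.mem_toFinset] at hp
      rcases List.mem_cons.1 hp with h3 | h3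
      · exact absurd h3 h
      · exact h3
    exact T4_phi_gsum v (Gam D' p) p hpL (hv p hpL) y w
  by_cases hDD : D' ∣ D
  · -- `D = D' r`
    obtain ⟨r, hr⟩ := hDD
    have hr0 : 0 < r := Nat.pos_of_ne_zero (by rintro rfl; omega)
    have hr2 : 2 ≤ r := by
      by_contra h
      have : r = 1 := by omega
      rw [this] at hr
      omega
    have h49'' : ¬ 49 ∣ D' := fun h => h49 (h.trans ⟨r, hr⟩)
    have h49' : ¬ 7 * 7 ∣ D' := by simpa using h49''
    set π := ZMod.unitsMap h7' with hπ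
    set σ := TA_s D' 7 p7 h7' h49' with hσ
    have hσ1 : ∀ b, σ b ∈ Gam D' 7 := TA_s_mem D' 7 p7 h7' h49'
    have hσ2 : ∀ b, π (σ b) = b := TA_s_map D' 7 p7 h7' h49'
    set ν := σ (-1) with hν
    have hνν : ν * ν = 1 := by
      rw [hν, ← map_mul]; simp
    set ξ := σ (a * (π z)⁻¹) with hξ
    set z' := ξ * z with hz'
    have hπz' : π z' = a := by
      rw [hz', map_mul, hξ, hσ2, inv_mul_cancel_right]
    have hL : ∀ r ∈ ([2, 3, 5] : List ℕ), r.Prime ∧ r ∣ D' ∧ r ≠ 7 := by
      intro r hr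
      have h1 : r = 2 ∨ r = 3 ∨ r = 5 := by simpa using hr
      rcases h1 with rfl | rfl | rfl
      · exact ⟨by norm_num, (by norm_num : 2 ∣ 420).trans h420', by norm_num⟩
      · exact ⟨by norm_num, (by norm_num : 3 ∣ 420).trans h420', by norm_num⟩
      · exact ⟨by norm_num, (by norm_num : 5 ∣ 420).trans h420', by norm_num⟩
    have hπg : ∀ b, π (T4_g v b) = 1 := by
      intro b
      apply TA_res D' 7 p7 h7' [2, 3, 5] hL
      unfold T4_g
      refine Subgroup.mul_mem_sup ?_ (Subgroup.mul_mem_sup ?_ ?_)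
      · split_ifs
        · exact hv 2 (by simp)
        · exact one_mem _
      · split_ifs
        · exact hv 3 (by simp)
        · exact one_mem _
      · simp only [Pl, sup_bot_eq]
        split_ifs
        · exact hv 5 (by simp)
        · exact one_mem _
    have hπκ : π (-1 * ν) = 1 := by
      rw [neg_one_mul, hπ, TA_map_neg, ← hπ, hσ2, neg_neg]
    set ψ : (ZMod D')ˣ → ℤ := fun x => T4_phi v z' x - T4_phi v (-1 * ν * z') x with hψ
    have hTst : Tst D' 7 ψ := by
      intro p hp hp7 w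
      have e : gsum (Gam D' p) ψ w = gsum (Gam D' p) (T4_phi v z') w -
          gsum (Gam D' p) (T4_phi v (-1 * ν * z')) w := by
        unfold gsum
        rw [← Finset.sum_sub_distrib]
        apply Finset.sum_congr rfl
        intro u _
        simp only [hψ]
        split_ifs <;> ring
      rw [e, hgs z' p hp hp7 w, hgs _ p hp hp7 w, sub_zero]
    have hcase : (-1 : (ZMod D')ˣ) ∉ Pl (Gam D') [7, 2, 3, 5] ∨
        (v 5 * v 5 ≠ 1 ∧ (-1 : (ZMod D')ˣ) ∉ Pl (Gam D') [7, 2, 3]) := by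
      by_cases h : D' = 420
      · right
        have hv5 := hvV 5 (by simp)
        simp only [hV] at hv5
        rw [if_pos ⟨h, trivial⟩] at hv5
        obtain ⟨hv5a, hv5b⟩ := hv5
        have hv5c : ZMod.unitsMap h5' (v 5) = ZMod.unitOfCoprime 2 (by norm_num) := hv5b
        constructor
        · intro h1
          have h3 := congrArg (ZMod.unitsMap h5') h1
          rw [map_mul, hv5c, map_one] at h3
          have h4 := congrArg Units.val h3
          rw [Units.val_mul, ZMod.coe_unitOfCoprime, Units.val_one] at h4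
          revert h4
          decide
        · intro h1
          have h3 := TA_res D' 5 p5 h5' [7, 2, 3] (by
            intro r hr
            have h1 : r = 7 ∨ r = 2 ∨ r = 3 := by simpa using hr
            rcases h1 with rfl | rfl | rfl
            · exact ⟨by norm_num, h7', by norm_num⟩
            · exact ⟨by norm_num, (by norm_num : 2 ∣ 420).trans h420', by norm_num⟩
            · exact ⟨by norm_num, (by norm_num : 3 ∣ 420).trans h420', by norm_num⟩) _ h1
          rw [TA_map_neg, map_one] at h3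
          revert h3
          decide
      · left
        exact TA_neg_one D' h420' h h49'' hpr'
    have hbd : ∀ x, |ψ x| ≤ 1 := fun x =>
      T4_phi_bd (Gam D') hI v hv hv1 (-1) ν (by simp) (hσ1 _) hνν hcase z' x
    have hsupp : ∀ x, ψ x ≠ 0 → π x = a := by
      intro x hx
      by_cases h3 : T4_phi v z' x = 0
      · have h4 : T4_phi v (-1 * ν * z') x ≠ 0 := by
          intro h4
          apply hx
          simp only [hψ]
          rw [h3, h4, sub_zero]
        obtain ⟨b, hb⟩ := T4_phi_supp v _ _ h4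
        rw [← hb, map_mul, hπg, one_mul, map_mul, hπκ, one_mul, hπz']
      · obtain ⟨b, hb⟩ := T4_phi_supp v _ _ h3
        rw [← hb, map_mul, hπg, one_mul, hπz']
    -- the value
    have hshift : ∀ u ∈ Gam D' 7, ∀ x, dl v [2, 3, 5] f (u * x) = dl v [2, 3, 5] f x := by
      intro u hu x
      have h3 := dl_of_mdv (Gam D') [2, 3, 5] _ (hmd u hu) v hv x
      have h4 := DL_dl_lin v [2, 3, 5] f f u x
      rw [h3] at h4
      linarith
    have hneg : ∀ x, dl v [2, 3, 5] f (-1 * x) = - dl v [2, 3, 5] f x := by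
      intro x
      rw [T4_dl, T4_dl, ← Finset.sum_neg_distrib]
      apply Finset.sum_congr rfl
      intro b _
      rw [mul_left_comm, neg_one_mul, hfodd]
      ring
    have hval : ∑ x, f x * ψ x = 2 * dl v [2, 3, 5] f z := by
      have e : ∑ x, f x * ψ x = ∑ x, f x * T4_phi v z' x -
          ∑ x, f x * T4_phi v (-1 * ν * z') x := by
        rw [← Finset.sum_sub_distrib]
        apply Finset.sum_congr rfl
        intro x _
        simp only [hψ]
        ring
      rw [e, T4_phi_sum, T4_phi_sum, mul_assoc, hneg, hshift ν (hσ1 _), hz', hshift ξ (hσ1 _)]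
      ring
    obtain ⟨s, hE, -⟩ := gf m D' 7 hD' p7 h7' ψ hTst 1 ⟨hbd, fun _ h => absurd h hnodd⟩
    have hfun := func m D' 7 hD' c1 c hQ hmax ψ s hE
    rw [hord ψ s hE] at hfun
    have hval' : (∑ x : (ZMod D')ˣ, anti c (emb D' m (x : ZMod D')) * ψ x : ℤ) =
        2 * dl v [2, 3, 5] f z := hval
    rw [hval'] at hfun
    -- the values of `s`
    have hsv : ∀ w : (ZMod D)ˣ, s (emb D m (w : ZMod D)) =
        ψ (ZMod.unitsMap (Dvd.intro r hr.symm) w) / r := by
      intro w
      have h3 := T4_iter m D' ψ s hE r hr0 (by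
        intro p hp hpr1
        have hpD : p ∣ D := hpr1.trans ⟨D', by rw [hr]; ring⟩
        have hp7 : p ≠ 7 := by
          rintro rfl
          apply h49
          obtain ⟨k, hk⟩ := hpr1
          obtain ⟨l, hl⟩ := h7'
          exact ⟨l * k, by rw [hr, hk, hl]; ring⟩
        refine ⟨hp7, ?_⟩
        have h5 := hpr p (Nat.mem_primeFactors.2 ⟨hp, hpD, hD0⟩)
        have h6 : p ∣ 420 := by
          interval_cases p
          · exact absurd hp (by norm_num)
          · exact absurd hp (by norm_num)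
          · norm_num
          · norm_num
          · exact absurd hp (by norm_num)
          · norm_num
          · exact absurd hp (by norm_num)
          · norm_num
        exact h6.trans h420') (emb D m (w : ZMod D)) (by rw [addOrderOf_emb hD w, hr])
      have h4 := emb_castHom hD hr.symm (w : ZMod D)
      have h5 : ZMod.castHom (Dvd.intro r hr.symm) (ZMod D') (w : ZMod D) =
          ((ZMod.unitsMap (Dvd.intro r hr.symm) w : (ZMod D')ˣ) : ZMod D') := by
        rw [ZMod.unitsMap_def, Units.coe_map]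
        rfl
      rw [h3, ← h4, h5, hE.val]
    have hbound : |((2 * dl v [2, 3, 5] f z : ℤ) : ℚ)| ≤ 2 / r := by
      rw [hfun]
      have h3 : ∀ w : (ZMod D)ˣ, |(anti c1 (emb D m (w : ZMod D)) : ℚ) *
          s (emb D m (w : ZMod D))| ≤ (((if ZMod.unitsMap h7 w = a then
            |anti c1 (emb D m (w : ZMod D))| else 0 : ℤ)) : ℚ) / r := by
        intro w
        rw [abs_mul, hsv w, abs_div]
        have hrr : |(r : ℚ)| = r := abs_of_nonneg (by positivity)
        rw [hrr]
        set w' := ZMod.unitsMap (Dvd.intro r hr.symm) w with hw'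
        have hrp : (0 : ℚ) < r := by exact_mod_cast hr0
        have hcomp : π w' = ZMod.unitsMap h7 w := by
          rw [hw', hπ, ← MonoidHom.comp_apply, ZMod.unitsMap_comp]
        by_cases hw0 : ψ w' = 0
        · rw [hw0]
          simp only [Int.cast_zero, abs_zero, zero_div, mul_zero]
          apply div_nonneg _ hrp.le
          split_ifs
          · exact_mod_cast abs_nonneg _
          · simp
        · rw [if_pos (by rw [← hcomp]; exact hsupp w' hw0)]
          have h5 : |(ψ w' : ℚ)| ≤ 1 := by exact_mod_cast hbd w'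
          rw [← mul_div_assoc]
          apply div_le_div_of_nonneg_right _ hrp.le
          push_cast
          calc |(anti c1 (emb D m (w : ZMod D)) : ℚ)| * |(ψ w' : ℚ)|
              ≤ |(anti c1 (emb D m (w : ZMod D)) : ℚ)| * 1 :=
                mul_le_mul_of_nonneg_left h5 (abs_nonneg _)
            _ = _ := mul_one _
      calc |∑ w : (ZMod D)ˣ, (anti c1 (emb D m (w : ZMod D)) : ℚ) * s (emb D m (w : ZMod D))|
          ≤ ∑ w : (ZMod D)ˣ, |(anti c1 (emb D m (w : ZMod D)) : ℚ) *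
            s (emb D m (w : ZMod D))| := Finset.abs_sum_le_sum_abs _ _
        _ ≤ ∑ w : (ZMod D)ˣ, (((if ZMod.unitsMap h7 w = a then
            |anti c1 (emb D m (w : ZMod D))| else 0 : ℤ)) : ℚ) / r :=
          Finset.sum_le_sum fun w _ => h3 w
        _ = (((∑ w : (ZMod D)ˣ, if ZMod.unitsMap h7 w = a then
            |anti c1 (emb D m (w : ZMod D))| else 0 : ℤ)) : ℚ) / r := by
          rw [← Finset.sum_div, Int.cast_sum]
        _ ≤ 2 / r := by
          apply div_le_div_of_nonneg_right _ (by positivity)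
          exact_mod_cast h2
    have h3 : (2 : ℚ) / r ≤ 1 := by
      rw [div_le_one (by exact_mod_cast hr0)]
      exact_mod_cast hr2
    have h4 : |2 * dl v [2, 3, 5] f z| ≤ 1 := by
      have := hbound.trans h3
      exact_mod_cast this
    apply hdl
    rw [abs_le] at h4
    omega
  · -- no contribution
    set B : ℤ := ∑ x, |T4_phi v z x| with hB
    obtain ⟨s, hE, -⟩ := gf m D' 7 hD' p7 h7' (T4_phi v z) (fun p hp hp7 w => hgs z p hp hp7 w) B
      ⟨fun x => Finset.single_le_sum (f := fun x => |T4_phi v z x|)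
        (fun i _ => abs_nonneg _) (Finset.mem_univ x), fun _ h => absurd h hnodd⟩
    have hfun := func m D' 7 hD' c1 c hQ hmax (T4_phi v z) s hE
    rw [hord _ s hE] at hfun
    have hval' : (∑ x : (ZMod D')ˣ, anti c (emb D' m (x : ZMod D')) * T4_phi v z x : ℤ) =
        dl v [2, 3, 5] f z := T4_phi_sum v f z
    rw [hval', Finset.sum_eq_zero] at hfun
    · apply hdl
      exact_mod_cast hfun
    · intro w _
      have : s (emb D m (w : ZMod D)) = 0 := by
        by_contra h0
        have := (hE.supp _ h0).1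
        rw [addOrderOf_emb hD w] at this
        exact hDD this
      rw [this, mul_zero]

end Pool.Agent.helper88.EF
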