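import Pool.Agent.helper88.EF.Defs
import Pool.Agent.helper23.EF.RS
import Pool.Agent.helper97.FQ.NE

/-! # Project EF, modules T2 - T4: the component in `Gam D 7` and differences -/

namespace Pool.Agent.helper88.EF

open Finset Pool.Agent.helper76.LP

/-! ### differences -/

section MD
variable {G ι : Type*} [CommGroup G] (Γ : ι → Subgroup G)

lemma TA_zero (L : List ι) (f : G → ℤ) (hf : ∀ x, f x = 0) : MDv Γ L f := by
  induction L generalizing f with
  | nil => exact hf
  | cons i L ih =>
    intro u _
    exact ih _ fun x => by rw [hf, hf, sub_zero]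

lemma TA_add (L : List ι) (f g : G → ℤ) (hf : MDv Γ L f) (hg : MDv Γ L g) :
    MDv Γ L (fun x => f x + g x) := by
  induction L generalizing f g with
  | nil =>
    intro x
    have h1 : f x = 0 := hf x
    have h2 : g x = 0 := hg x
    simp only [h1, h2, add_zero]
  | cons i L ih =>
    intro u hu
    have h := ih _ _ (hf u hu) (hg u hu)
    have e : (fun x => f (u * x) + g (u * x) - (f x + g x)) =
        fun x => (f (u * x) - f x) + (g (u * x) - g x) := by
      funext x; ring
    simp only [e]
    exact h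

lemma TA_neg (L : List ι) (f : G → ℤ) (hf : MDv Γ L f) : MDv Γ L (fun x => - f x) :=
  NE_mdv_neg Γ L f hf

lemma TA_sub (L : List ι) (f g : G → ℤ) (hf : MDv Γ L f) (hg : MDv Γ L g) :
    MDv Γ L (fun x => f x - g x) := by
  have h := TA_add Γ L f (fun x => - g x) hf (TA_neg Γ L g hg)
  have e : (fun x => f x - g x) = fun x => f x + - g x := by funext x; ring
  rw [e]; exact h

lemma TA_shift (L : List ι) (f : G → ℤ) (hf : MDv Γ L f) (a : G) :
    MDv Γ L (fun x => f (a * x)) := by
  induction L generalizing f with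
  | nil => exact fun x => hf (a * x)
  | cons i L ih =>
    intro u hu
    have h := ih _ (hf u hu)
    have e : (fun x => f (a * (u * x)) - f (a * x)) =
        fun x => f (u * (a * x)) - f (a * x) := by
      funext x; rw [mul_left_comm]
    simp only [e]
    exact h

lemma TA_sum {κ : Type*} (s : Finset κ) (L : List ι) (f : κ → G → ℤ)
    (hf : ∀ k ∈ s, MDv Γ L (f k)) : MDv Γ L (fun x => ∑ k ∈ s, f k x) := by
  classical
  induction s using Finset.induction_on with
  | empty => exact TA_zero Γ L _ fun x => by simp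
  | insert k s hk ih =>
    have h := TA_add Γ L _ _ (hf k (Finset.mem_insert_self k s))
      (ih fun j hj => hf j (Finset.mem_insert_of_mem hj))
    have e : (fun x => ∑ j ∈ insert k s, f j x) = fun x => f k x + ∑ j ∈ s, f j x := by
      funext x; rw [Finset.sum_insert hk]
    rw [e]; exact h

lemma TA_div (L : List ι) (f : G → ℤ) (n : ℤ) (hn : n ≠ 0) (hf : MDv Γ L (fun x => n * f x)) :
    MDv Γ L f := by
  induction L generalizing f with
  | nil =>
    intro x
    have h : n * f x = 0 := hf x
    rcases mul_eq_zero.1 h with h1 | h1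
    · exact absurd h1 hn
    · exact h1
  | cons i L ih =>
    intro u hu
    apply ih
    have h := hf u hu
    have e : (fun x => n * (f (u * x) - f x)) = fun x => n * f (u * x) - n * f x := by
      funext x; ring
    simp only [e]
    exact h

/-- transport along a homomorphism -/
lemma TA_comap {G' : Type*} [CommGroup G'] (Γ' : ι → Subgroup G') (φ : G →* G') (L : List ι)
    (hφ : ∀ i ∈ L, ∀ u ∈ Γ i, φ u ∈ Γ' i) (f : G' → ℤ) (hf : MDv Γ' L f) :
    MDv Γ L (fun x => f (φ x)) := by
  induction L generalizing f with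
  | nil => exact fun x => hf (φ x)
  | cons i L ih =>
    intro u hu
    have h := ih (fun j hj => hφ j (List.mem_cons_of_mem _ hj)) _
      (hf (φ u) (hφ i List.mem_cons_self u hu))
    have e : (fun x => f (φ (u * x)) - f (φ x)) = fun x => f (φ u * φ x) - f (φ x) := by
      funext x; rw [map_mul]
    simp only [e]
    exact h

end MD

/-! ### the section of the reduction modulo a prime `p` with values in `Gam D p` -/

section sec
variable (D p : ℕ) [NeZero D] (hp : p.Prime) (hpD : p ∣ D) (h2 : ¬ p * p ∣ D)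

/-- the section -/
noncomputable def TA_s : (ZMod p)ˣ →* (ZMod D)ˣ :=
  (Gam D p).subtype.comp
    (MulEquiv.ofBijective (RS_map D p hpD) (RS_map_bij D p hp hpD h2)).symm.toMonoidHom

lemma TA_s_mem (b : (ZMod p)ˣ) : TA_s D p hp hpD h2 b ∈ Gam D p := Subtype.property _

lemma TA_s_map (b : (ZMod p)ˣ) : ZMod.unitsMap hpD (TA_s D p hp hpD h2 b) = b := by
  have h := (MulEquiv.ofBijective (RS_map D p hpD) (RS_map_bij D p hp hpD h2)).apply_symm_apply b
  exact h

lemma TA_s_of_mem (u : (ZMod D)ˣ) (hu : u ∈ Gam D p) :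
    TA_s D p hp hpD h2 (ZMod.unitsMap hpD u) = u := by
  have h := (MulEquiv.ofBijective (RS_map D p hpD)
    (RS_map_bij D p hp hpD h2)).symm_apply_apply ⟨u, hu⟩
  exact congrArg Subtype.val h

end sec

/-- the residue modulo `p` is constant on the cosets of the other subgroups -/
lemma TA_res (D p : ℕ) [NeZero D] (hp : p.Prime) (hpD : p ∣ D) (L : List ℕ)
    (hL : ∀ r ∈ L, r.Prime ∧ r ∣ D ∧ r ≠ p) (w : (ZMod D)ˣ) (hw : w ∈ Pl (Gam D) L) :
    ZMod.unitsMap hpD w = 1 := by
  have h1 := Pl_Gam_cast D p hpD L (by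
    intro r hr
    obtain ⟨a, b, c⟩ := hL r hr
    refine ⟨b, ?_⟩
    obtain ⟨k, hk⟩ := (Nat.Coprime.mul_dvd_of_dvd_of_dvd ((Nat.coprime_primes a hp).2 c) b hpD)
    refine ⟨k, ?_⟩
    rw [hk, mul_assoc, Nat.mul_div_cancel_left _ a.pos]) _ hw
  apply Units.ext
  rw [ZMod.unitsMap_def, Units.coe_map]
  simpa using h1

end Pool.Agent.helper88.EF
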