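import Pool.Agent.helper88.EF.Defs
import Pool.Agent.helper15.EF.FX

/-! # Project EF, module TL: the last orders -/

namespace Pool.Agent.helper88.EF

open Finset Pool.Agent.helper76.LP

lemma TL_odd {m : ℕ} (c : ZMod m → ℤ) (x : ZMod m) : anti c (-x) = - anti c x := by
  unfold anti; rw [neg_neg]; ring

lemma TL_odd_emb {D m : ℕ} [NeZero D] (hD : D ∣ m) (c : ZMod m → ℤ) (z : (ZMod D)ˣ) :
    anti c (emb D m ((-z : (ZMod D)ˣ) : ZMod D)) = - anti c (emb D m (z : ZMod D)) := by
  rw [Units.val_neg, emb_neg hD, TL_odd]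

/-- order `q` -/
lemma TL_one (m q : ℕ) [NeZero m] [NeZero q] (hq : q.Prime) (hD : q ∣ m) (c : ZMod m → ℤ)
    (hT : TateF (anti c))
    (hmax : ∀ x, q ∣ addOrderOf x → addOrderOf x ≠ q → anti c x = 0) :
    NDec q (fun z => anti c (emb q m (z : ZMod q))) := by
  have h1 := mdiff m (anti c) (TL_odd c) hT q hD hmax [q] (by
    intro p hp
    rw [Nat.Prime.primeFactors hq] at hp
    simpa using hp)
  refine ⟨fun _ z => anti c (emb q m (z : ZMod q)), ?_, ?_, ?_⟩
  · intro p hp u hu x
    rw [Nat.Prime.primeFactors hq, Finset.mem_singleton] at hp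
    subst hp
    have := h1 u hu x
    simp only at this ⊢
    linarith
  · intro x
    rw [Nat.Prime.primeFactors hq, Finset.sum_singleton]
  · intro p _ x
    exact TL_odd_emb hD c x

/-- `D` even, `D / 2` odd: `Gam D 2` is trivial -/
lemma TL_gam_two (q : ℕ) (hq : Odd q) [NeZero (2 * q)] (u : (ZMod (2 * q))ˣ)
    (hu : u ∈ Gam (2 * q) 2) : u = 1 := by
  have hq0 : 0 < q := hq.pos
  have : NeZero q := ⟨hq0.ne'⟩
  unfold Gam at hu
  rw [dif_pos (Dvd.intro q rfl)] at hu
  have h2 : 2 * q / 2 = q := by omega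
  rw [MonoidHom.mem_ker] at hu
  have hval := congrArg (fun w : (ZMod (2 * q / 2))ˣ => (w : ZMod (2 * q / 2))) hu
  simp only [ZMod.unitsMap_val, Units.val_one] at hval
  have h3 : ((u : ZMod (2 * q)).val : ZMod (2 * q / 2)) = ((1 : ℕ) : ZMod (2 * q / 2)) := by
    rw [Nat.cast_one, ← hval, ZMod.natCast_val]
  rw [ZMod.natCast_eq_natCast_iff, h2] at h3
  have h5 : Nat.Coprime ((u : ZMod (2 * q)).val) (2 * q) := ZMod.val_coe_unit_coprime u
  have h6 : Odd ((u : ZMod (2 * q)).val) := by
    rw [← Nat.not_even_iff_odd, even_iff_two_dvd]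
    intro h
    have := Nat.Coprime.coprime_dvd_left h (Nat.Coprime.coprime_mul_right_right h5)
    norm_num at this
  have h7 : (u : ZMod (2 * q)).val ≡ 1 [MOD 2] := Nat.odd_iff.1 h6
  have h8 : (u : ZMod (2 * q)).val ≡ 1 [MOD (2 * q)] := by
    refine (Nat.modEq_and_modEq_iff_modEq_mul ?_).1 ⟨h7, h3⟩
    exact (Nat.coprime_two_left).2 hq
  apply Units.ext
  rw [Units.val_one]
  have h9 := (ZMod.natCast_eq_natCast_iff _ _ _).2 h8
  rw [ZMod.natCast_zmod_val, Nat.cast_one] at h9
  exact h9

/-- order `2 q` -/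
lemma TL_two (m q : ℕ) [NeZero m] [NeZero (2 * q)] (hq : q.Prime) (h3 : 3 ≤ q) (hD : 2 * q ∣ m)
    (c : ZMod m → ℤ) : NDec (2 * q) (fun z => anti c (emb (2 * q) m (z : ZMod (2 * q)))) := by
  have ho : Odd q := hq.odd_of_ne_two (by omega)
  refine ⟨fun p z => if p = 2 then anti c (emb (2 * q) m (z : ZMod (2 * q))) else 0, ?_, ?_, ?_⟩
  · intro p hp u hu x
    by_cases h : p = 2
    · subst h
      rw [TL_gam_two q ho u hu, one_mul]
    · simp [h]
  · intro x
    have h2 : 2 ∈ (2 * q).primeFactors :=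
      Nat.mem_primeFactors.2 ⟨Nat.prime_two, Dvd.intro q rfl, NeZero.ne _⟩
    simp [h2]
  · intro p _ x
    by_cases h : p = 2
    · simp only [h, if_true]
      exact TL_odd_emb hD c x
    · simp [h]

open Pool.Agent.helper34.DH in
theorem tail (E : AddSubgroup Qt) (hE : hh ∈ E) (m : ℕ) [NeZero m] (q : ℕ) (hq : q.Prime)
    (h7 : 7 ≤ q) (k : ℕ) (hk : k ≤ 5)
    (hF : ∀ n, 3 ≤ n → n ≤ k → n * q ∣ m → ∀ _ : NeZero (n * q), FixE E (n * q))
    (c : ZMod m → ℤ) (hT : TateF (anti c))
    (hmax : ∀ x, anti c x ≠ 0 → q ∣ addOrderOf x → addOrderOf x ≤ k * q) :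
    ∃ c' : ZMod m → ℤ, TateF (anti c') ∧ (∀ x, q ∣ addOrderOf x → anti c' x = 0) ∧
      (∀ x, ¬ q ∣ addOrderOf x → ¬ addOrderOf x ∣ 60 → anti c' x = anti c x) ∧
      cls m c - cls m c' ∈ E := by
  have hq0 : 0 < q := hq.pos
  induction k generalizing c with
  | zero =>
    refine ⟨c, hT, ?_, fun _ _ _ => rfl, by rw [sub_self]; exact E.zero_mem⟩
    intro x hx
    by_contra h0
    have h1 := hmax x h0 hx
    have h2 := addOrderOf_pos x
    omega
  | succ n ih =>
    have hn60 : ∀ d, d ∣ (n + 1) → d ∣ 60 := by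
      intro d hd
      have hn4 : n ≤ 4 := by omega
      have : n + 1 ∣ 60 := by
        clear ih hF hmax hd
        interval_cases n <;> decide
      exact hd.trans this
    have hF' : ∀ n', 3 ≤ n' → n' ≤ n → n' * q ∣ m → ∀ _ : NeZero (n' * q), FixE E (n' * q) :=
      fun n' h3 hle => hF n' h3 (by omega)
    by_cases hD : (n + 1) * q ∣ m
    · have : NeZero ((n + 1) * q) := ⟨Nat.mul_ne_zero (Nat.succ_ne_zero n) hq0.ne'⟩
      have hm2 : ∀ x, (n + 1) * q ∣ addOrderOf x → addOrderOf x ≠ (n + 1) * q →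
          anti c x = 0 := by
        intro x h1 h2
        by_contra h0
        have h3 := hmax x h0 ((Dvd.intro_left (n + 1) rfl).trans h1)
        have h4 := Nat.le_of_dvd (addOrderOf_pos x) h1
        omega
      have key : ∃ c' : ZMod m → ℤ, TateF (anti c') ∧
          (∀ x, addOrderOf x = (n + 1) * q → anti c' x = 0) ∧
          (∀ x, ¬ addOrderOf x ∣ (n + 1) * q → anti c' x = anti c x) ∧
          cls m c - cls m c' ∈ E := by
        rcases (by omega : 3 ≤ n + 1 ∨ n + 1 = 2 ∨ n + 1 = 1) with h | h | h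
        · exact fix_step E hE m _ hD (hF (n + 1) h le_rfl hD this) c hT hm2
        · have hn : n = 1 := by omega
          subst hn
          exact ndec_step E hE m _ hD c hT (TL_two m q hq (by omega) hD c)
        · have hn : n = 0 := by omega
          subst hn
          have hqz : NeZero q := ⟨hq0.ne'⟩
          have e1 : (0 + 1) * q = q := by ring
          rw [e1] at hD hm2
          obtain ⟨c', h1, h2, h3, h4⟩ := ndec_step E hE m q hD c hT (TL_one m q hq hD c hT hm2)
          refine ⟨c', h1, ?_, ?_, h4⟩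
          · rw [e1]; exact h2
          · rw [e1]; exact h3
      obtain ⟨c1, a1, a2, a3, a4⟩ := key
      obtain ⟨c2, b1, b2, b3, b4⟩ := ih (by omega) hF' c1 a1 (by
        intro x hx hqx
        by_contra hlt
        push Not at hlt
        obtain ⟨t, ht⟩ := hqx
        by_cases hdv : addOrderOf x ∣ (n + 1) * q
        · rw [ht, mul_comm q t] at hdv hlt
          have h1 : t ∣ n + 1 := Nat.dvd_of_mul_dvd_mul_right hq0 hdv
          have h2 : n < t := lt_of_mul_lt_mul_right hlt (Nat.zero_le q)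
          have h3 : t = n + 1 := by
            have := Nat.le_of_dvd (Nat.succ_pos n) h1
            omega
          apply hx
          apply a2
          rw [ht, mul_comm q t, h3]
        · rw [a3 x hdv] at hx
          have h1 := hmax x hx (Dvd.intro t ht.symm)
          rw [ht, mul_comm q t] at h1 hlt
          have h2 : n < t := lt_of_mul_lt_mul_right hlt (Nat.zero_le q)
          have h4 : t ≤ n + 1 := le_of_mul_le_mul_right h1 hq0
          have h3 : t = n + 1 := by omega
          apply hdv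
          rw [ht, mul_comm q t, h3])
      refine ⟨c2, b1, b2, ?_, ?_⟩
      · intro x hqx h60
        rw [b3 x hqx h60]
        apply a3
        intro hdv
        apply h60
        apply hn60
        exact Nat.Coprime.dvd_of_dvd_mul_right ((hq.coprime_iff_not_dvd.2 hqx).symm) hdv
      · have : cls m c - cls m c2 = (cls m c - cls m c1) + (cls m c1 - cls m c2) := by abel
        rw [this]
        exact E.add_mem a4 b4
    · refine ih (by omega) hF' c hT ?_
      intro x hx hqx
      have h1 := hmax x hx hqx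
      obtain ⟨t, ht⟩ := hqx
      rw [ht, mul_comm q t] at h1 ⊢
      have h4 : t ≤ n + 1 := le_of_mul_le_mul_right h1 hq0
      have h5 : t ≠ n + 1 := by
        rintro rfl
        apply hD
        rw [mul_comm, ← ht]
        exact addOrderOf_dvd' x
      exact Nat.mul_le_mul_right q (by omega)

end Pool.Agent.helper88.EF
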